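import Mathlib

set_option autoImplicit false

/-!
# Counting progressions through pairs of points near the left end
-/

namespace Pool.Agent.N476.BR

open Finset

/-- The pairs `(a, d)` describing the `k`-term progressions in `{1, …, n}`. -/
def S (k n : ℕ) : Finset (ℕ × ℕ) :=
  ((Icc 1 n) ×ˢ (Icc 1 n)).filter (fun p => p.1 + (k - 1) * p.2 ≤ n)

theorem mem_S {k n : ℕ} (hk : 2 ≤ k) (p : ℕ × ℕ) :
    p ∈ S k n ↔ 1 ≤ p.1 ∧ 1 ≤ p.2 ∧ p.1 + (k - 1) * p.2 ≤ n := by
  unfold S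
  rw [mem_filter, mem_product, mem_Icc, mem_Icc]
  constructor
  · rintro ⟨⟨⟨h1, _⟩, h2, _⟩, h3⟩
    exact ⟨h1, h2, h3⟩
  · rintro ⟨h1, h2, h3⟩
    have : p.2 ≤ (k - 1) * p.2 := Nat.le_mul_of_pos_left _ (by omega)
    refine ⟨⟨⟨h1, by omega⟩, h2, by omega⟩, h3⟩

/-- Change of variables from progressions to pairs of points at positions `i < j`. -/
theorem pair_sum {k n L e i j : ℕ} (hk : 2 ≤ k) (hij : i < j) (hjk : j < k) (he : 1 ≤ e)
    (hL : L = e * (j - i)) (Y : Finset ℕ) (hY : ∀ y ∈ Y, 1 ≤ y ∧ L * k * y ≤ n) (φ : ℕ → ℝ)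
    (hφ : ∀ x, φ x ≠ 0 → ∃ y ∈ Y, x = L * y) :
    ∑ p ∈ S k n, φ (p.1 + i * p.2) * φ (p.1 + j * p.2) =
      ∑ q ∈ (Y ×ˢ Y).filter (fun q => q.1 < q.2 ∧ i * q.2 < j * q.1),
        φ (L * q.1) * φ (L * q.2) := by
  classical
  obtain ⟨m, rfl⟩ : ∃ m, j = i + m := ⟨j - i, by omega⟩
  have hm : 1 ≤ m := by omega
  have hL' : L = e * m := by rw [hL]; congr 1; omega
  clear hL
  set T := (Y ×ˢ Y).filter (fun q => q.1 < q.2 ∧ i * q.2 < (i + m) * q.1) with hT
  set F : ℕ × ℕ → ℕ × ℕ := fun q => (e * ((i + m) * q.1 - i * q.2), e * (q.2 - q.1)) with hF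
  have hmemT : ∀ q ∈ T, q.1 ∈ Y ∧ q.2 ∈ Y ∧ q.1 < q.2 ∧ i * q.2 < (i + m) * q.1 := by
    intro q hq
    rw [hT, mem_filter, mem_product] at hq
    exact ⟨hq.1.1, hq.1.2, hq.2.1, hq.2.2⟩
  have key1 : ∀ q ∈ T, (F q).1 + i * (F q).2 = L * q.1 := by
    intro q hq
    obtain ⟨_, _, h1, h2⟩ := hmemT q hq
    simp only [hF, hL']
    zify [h1.le, h2.le]
    ring
  have key2 : ∀ q ∈ T, (F q).1 + (i + m) * (F q).2 = L * q.2 := by
    intro q hq
    obtain ⟨_, _, h1, h2⟩ := hmemT q hq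
    simp only [hF, hL']
    zify [h1.le, h2.le]
    ring
  have hL0 : 1 ≤ L := by
    rw [hL']
    exact Nat.mul_pos he hm
  have hinj : Set.InjOn F T := by
    intro q hq q' hq' h
    have e1 := key1 q hq
    have e2 := key2 q hq
    rw [h, key1 q' hq'] at e1
    rw [h, key2 q' hq'] at e2
    have := Nat.eq_of_mul_eq_mul_left hL0 e1
    have := Nat.eq_of_mul_eq_mul_left hL0 e2
    exact Prod.ext (by omega) (by omega)
  have himg : T.image F ⊆ S k n := by
    intro p hp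
    rw [mem_image] at hp
    obtain ⟨q, hq, rfl⟩ := hp
    obtain ⟨hy, hz, h1, h2⟩ := hmemT q hq
    rw [mem_S hk]
    have ha : 1 ≤ (F q).1 := Nat.mul_pos he (by omega)
    have hd : 1 ≤ (F q).2 := Nat.mul_pos he (by omega)
    refine ⟨ha, hd, ?_⟩
    have hz2 := (hY _ hz).2
    have e2 := key2 q hq
    have h3 : (F q).2 ≤ L * q.2 := by
      rw [← e2]
      calc (F q).2 ≤ (i + m) * (F q).2 := Nat.le_mul_of_pos_left _ (by omega)
        _ ≤ _ := by omega
    have h4 : (F q).1 ≤ L * q.2 := by omega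
    have h5 : (k - 1) * (F q).2 ≤ (k - 1) * (L * q.2) := Nat.mul_le_mul_left _ h3
    calc (F q).1 + (k - 1) * (F q).2 ≤ L * q.2 + (k - 1) * (L * q.2) := by omega
      _ = L * k * q.2 := by
          obtain ⟨k', rfl⟩ : ∃ k', k = k' + 1 := ⟨k - 1, by omega⟩
          simp only [Nat.add_sub_cancel]
          ring
      _ ≤ n := hz2
  have hrhs : ∑ q ∈ T, φ (L * q.1) * φ (L * q.2) =
      ∑ p ∈ T.image F, φ (p.1 + i * p.2) * φ (p.1 + (i + m) * p.2) := by
    rw [Finset.sum_image hinj]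
    apply Finset.sum_congr rfl
    intro q hq
    rw [key1 q hq, key2 q hq]
  rw [hrhs]
  symm
  apply Finset.sum_subset himg
  intro p hp hnp
  by_contra hne
  have h1 : φ (p.1 + i * p.2) ≠ 0 := left_ne_zero_of_mul hne
  have h2 : φ (p.1 + (i + m) * p.2) ≠ 0 := right_ne_zero_of_mul hne
  obtain ⟨y, hy, e1⟩ := hφ _ h1
  obtain ⟨z, hz, e2⟩ := hφ _ h2
  rw [mem_S hk] at hp
  obtain ⟨ha, hd, _⟩ := hp
  apply hnp
  rw [mem_image]
  -- `m * d = L * (z - y) = e * m * (z - y)`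
  have h3 : m * p.2 + L * y = L * z := by
    rw [← e1, ← e2]
    ring
  have hyz : y < z := by
    have : 0 < m * p.2 := Nat.mul_pos hm hd
    have : L * y < L * z := by omega
    exact lt_of_mul_lt_mul_left this (Nat.zero_le _)
  have h4 : p.2 = e * (z - y) := by
    have : m * p.2 = m * (e * (z - y)) := by
      rw [hL'] at h3
      zify [hyz.le] at h3 ⊢
      linarith
    exact Nat.eq_of_mul_eq_mul_left hm this
  have h5 : p.1 + i * (e * (z - y)) = e * m * y := by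
    rw [← h4, e1, hL']
  have h6 : i * z < (i + m) * y := by
    have h7 : i * (e * (z - y)) < e * m * y := by omega
    have h8 : e * (i * (z - y)) < e * (m * y) := by
      calc e * (i * (z - y)) = i * (e * (z - y)) := by ring
        _ < e * m * y := h7
        _ = e * (m * y) := by ring
    have h9 : i * (z - y) < m * y := lt_of_mul_lt_mul_left h8 (Nat.zero_le _)
    zify [hyz.le] at h9 ⊢
    linarith
  refine ⟨(y, z), ?_, ?_⟩
  · rw [hT, mem_filter, mem_product]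
    exact ⟨⟨hy, hz⟩, hyz, h6⟩
  · apply Prod.ext
    · simp only [hF]
      have : p.1 + i * (e * (z - y)) = e * ((i + m) * y - i * z) + i * (e * (z - y)) := by
        rw [h5]
        zify [hyz.le, h6.le]
        ring
      omega
    · simp only [hF]
      exact h4.symm

end Pool.Agent.N476.BR
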