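import Mathlib
import Pool.Agent.N476.BR.Pairs

set_option autoImplicit false

/-!
# The number of progressions, and changing a colouring at one point
-/

namespace Pool.Agent.N476.BR

open Finset

theorem card_S (k n : ℕ) : (S k n).card = ∑ d ∈ range n, (n - (k - 1) * (d + 1)) := by
  have h1 : ∀ d, ∑ a ∈ Icc 1 n, (if a + (k - 1) * d ≤ n then 1 else 0) = n - (k - 1) * d := by
    intro d
    rw [← Finset.card_filter]
    have : (Icc 1 n).filter (fun a => a + (k - 1) * d ≤ n) = Icc 1 (n - (k - 1) * d) := by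
      ext a
      rw [mem_filter, mem_Icc, mem_Icc]
      omega
    rw [this]
    simp
  unfold S
  rw [Finset.card_filter, Finset.sum_product_right]
  simp only [h1]
  rw [Finset.range_eq_Ico, Finset.sum_Ico_add' (fun d => n - (k - 1) * d) 0 n 1]
  apply Finset.sum_congr _ fun _ _ => rfl
  ext x
  rw [mem_Icc, mem_Ico]
  omega

section
variable {k n : ℕ}

theorem card_S_le (hk : 3 ≤ k) : ((S k n).card : ℝ) ≤ (n : ℝ) ^ 2 / (2 * ((k : ℝ) - 1)) := by
  obtain ⟨q, rfl⟩ : ∃ q, k = q + 1 := ⟨k - 1, by omega⟩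
  have hq : (0 : ℝ) < q := by
    have : 0 < q := by omega
    exact_mod_cast this
  rw [card_S]
  simp only [Nat.add_sub_cancel]
  push_cast
  set G : ℕ → ℝ := fun m => ((n - q * m : ℕ) : ℝ) ^ 2 / (2 * q) with hG
  have h1 : ∀ d ∈ range n, ((n - q * (d + 1) : ℕ) : ℝ) ≤ G d - G (d + 1) := by
    intro d _
    rw [hG]
    simp only
    rw [← sub_div, le_div_iff₀ (by positivity)]
    rcases le_or_gt (q * (d + 1)) n with h | h
    · have h2 : q * d ≤ n := by nlinarith
      rw [Nat.cast_sub h, Nat.cast_sub h2]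
      push_cast
      nlinarith
    · have h2 : n - q * (d + 1) = 0 := by omega
      rw [h2]
      simp
  refine (Finset.sum_le_sum h1).trans ?_
  rw [Finset.sum_range_sub']
  have h3 : 0 ≤ G n := by
    rw [hG]
    positivity
  have h4 : G 0 = (n : ℝ) ^ 2 / (2 * q) := by
    rw [hG]
    simp
  have h5 : ((q : ℝ) + 1 - 1) = q := by ring
  rw [h5]
  linarith

theorem card_S_ge (hk : 3 ≤ k) :
    (n : ℝ) ^ 2 / (2 * ((k : ℝ) - 1)) - n ≤ ((S k n).card : ℝ) := by
  obtain ⟨q, rfl⟩ : ∃ q, k = q + 1 := ⟨k - 1, by omega⟩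
  have hq : (0 : ℝ) < q := by
    have : 0 < q := by omega
    exact_mod_cast this
  rw [card_S]
  simp only [Nat.add_sub_cancel]
  push_cast
  set G : ℕ → ℝ := fun m => ((n - q * m : ℕ) : ℝ) ^ 2 / (2 * q) with hG
  have h1 : ∀ d ∈ range n, G (d + 1) - G (d + 1 + 1) ≤ ((n - q * (d + 1) : ℕ) : ℝ) := by
    intro d _
    rw [hG]
    simp only
    rw [← sub_div, div_le_iff₀ (by positivity)]
    rcases le_or_gt (q * (d + 1 + 1)) n with h | h
    · have h2 : q * (d + 1) ≤ n := by nlinarith
      rw [Nat.cast_sub h, Nat.cast_sub h2]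
      push_cast
      nlinarith
    · have h2 : n - q * (d + 1 + 1) = 0 := by omega
      rw [h2]
      have h3 : n - q * (d + 1) ≤ q := by
        have : q * (d + 1 + 1) = q * (d + 1) + q := by ring
        omega
      have h4 : ((n - q * (d + 1) : ℕ) : ℝ) ≤ q := by exact_mod_cast h3
      have h5 : (0 : ℝ) ≤ ((n - q * (d + 1) : ℕ) : ℝ) := Nat.cast_nonneg _
      simp
      nlinarith
  refine le_trans ?_ (Finset.sum_le_sum h1)
  rw [Finset.sum_range_sub' (fun d => G (d + 1))]
  have h3 : G (n + 1) = 0 := by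
    rw [hG]
    have : n - q * (n + 1) = 0 := by
      have : n + 1 ≤ q * (n + 1) := Nat.le_mul_of_pos_left _ (by omega)
      omega
    simp only
    rw [this]
    simp
  have h5 : ((q : ℝ) + 1 - 1) = q := by ring
  rw [h5, h3]
  have h6 : ((n : ℝ) ^ 2 - 2 * q * n) / (2 * q) ≤ G (0 + 1) := by
    rw [hG]
    simp only
    apply div_le_div_of_nonneg_right _ (by positivity)
    simp only [zero_add, mul_one]
    rcases le_or_gt q n with h | h
    · rw [Nat.cast_sub h]
      nlinarith
    · have h7 : (n : ℝ) < q := by exact_mod_cast h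
      have h8 : n - q = 0 := by omega
      rw [h8]
      have h9 : (0 : ℝ) ≤ n := Nat.cast_nonneg _
      simp
      nlinarith
  have h7 : ((n : ℝ) ^ 2 - 2 * q * n) / (2 * q) = (n : ℝ) ^ 2 / (2 * q) - n := by
    field_simp
  linarith

end

/-- The number of monochromatic progressions of a colouring. -/
def cnt {r : ℕ} (k n : ℕ) (χ : ℕ → Fin r) : ℕ :=
  ((S k n).filter (fun p => ∀ i < k, χ (p.1 + i * p.2) = χ p.1)).card

theorem cnt_congr {r : ℕ} {k n : ℕ} (hk : 2 ≤ k) {χ χ' : ℕ → Fin r}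
    (h : ∀ x, 1 ≤ x → x ≤ n → χ x = χ' x) : cnt k n χ = cnt k n χ' := by
  unfold cnt
  congr 1
  apply Finset.filter_congr
  intro p hp
  rw [mem_S hk] at hp
  have h1 : ∀ i < k, χ (p.1 + i * p.2) = χ' (p.1 + i * p.2) := by
    intro i hi
    apply h
    · omega
    · have : i * p.2 ≤ (k - 1) * p.2 := Nat.mul_le_mul_right _ (by omega)
      omega
  have h2 : χ p.1 = χ' p.1 := by
    apply h
    · omega
    · omega
  constructor
  · intro h3 i hi
    rw [← h1 i hi, h3 i hi, h2]
  · intro h3 i hi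
    rw [h1 i hi, h3 i hi, h2]

theorem cnt_change {r : ℕ} {k n : ℕ} (hk : 2 ≤ k) {χ χ' : ℕ → Fin r} (x₀ : ℕ)
    (h : ∀ x, x ≠ x₀ → χ x = χ' x) : cnt k n χ ≤ cnt k n χ' + k * n := by
  classical
  unfold cnt
  set bad := (range k ×ˢ Icc 1 n).image (fun q : ℕ × ℕ => (x₀ - q.1 * q.2, q.2)) with hbad
  have h1 : (S k n).filter (fun p => ∀ i < k, χ (p.1 + i * p.2) = χ p.1) ⊆
      (S k n).filter (fun p => ∀ i < k, χ' (p.1 + i * p.2) = χ' p.1) ∪ bad := by
    intro p hp
    rw [mem_filter] at hp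
    rw [mem_union, mem_filter]
    by_cases hx : ∃ i < k, p.1 + i * p.2 = x₀
    · right
      obtain ⟨i, hi, hx⟩ := hx
      rw [hbad, mem_image]
      refine ⟨(i, p.2), ?_, ?_⟩
      · rw [mem_product, mem_range, mem_Icc]
        have h2 := (mem_S hk p).1 hp.1
        have : p.2 ≤ (k - 1) * p.2 := Nat.le_mul_of_pos_left _ (by omega)
        exact ⟨hi, h2.2.1, by omega⟩
      · apply Prod.ext
        · simp only
          omega
        · rfl
    · left
      push Not at hx
      refine ⟨hp.1, fun i hi => ?_⟩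
      have h2 : χ' p.1 = χ p.1 := by
        have := hx 0 (by omega)
        simp only [zero_mul, add_zero] at this
        exact (h _ this).symm
      rw [← h _ (hx i hi), hp.2 i hi, h2]
  calc _ ≤ ((S k n).filter (fun p => ∀ i < k, χ' (p.1 + i * p.2) = χ' p.1) ∪ bad).card :=
        Finset.card_le_card h1
    _ ≤ _ + bad.card := Finset.card_union_le _ _
    _ ≤ _ := by
        apply Nat.add_le_add_left
        refine Finset.card_image_le.trans ?_
        rw [Finset.card_product, card_range]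
        simp

/-- Discrete intermediate value theorem. -/
theorem discrete_ivt (f : ℕ → ℝ) (n : ℕ) (T c K : ℝ) (hc : 0 ≤ c) (hK : 0 ≤ K) (h0 : f 0 ≤ T)
    (hn : T - c ≤ f n) (hstep : ∀ m, f (m + 1) ≤ f m + K) : ∃ m, |f m - T| ≤ c + K := by
  classical
  have hex : ∃ m, T - c ≤ f m := ⟨n, hn⟩
  obtain hm := Nat.find_spec hex
  set m := Nat.find hex with hmdef
  refine ⟨m, ?_⟩
  rcases Nat.eq_zero_or_pos m with h | h
  · rw [h] at hm ⊢
    rw [abs_le]
    constructor <;> linarith
  · have h1 : ¬ (T - c ≤ f (m - 1)) := Nat.find_min hex (by omega)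
    have h2 := hstep (m - 1)
    have h3 : m - 1 + 1 = m := by omega
    rw [h3] at h2
    rw [abs_le]
    constructor <;> linarith

end Pool.Agent.N476.BR
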