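import Mathlib
import Pool.Agent.N476.BR.Pairs

set_option autoImplicit false

/-!
# The quadratic form of pair counts is not positive semidefinite
-/

namespace Pool.Agent.N476.BR

open Finset

theorem tri (a t : ℕ) :
    ∑ y ∈ Ico a (a + t), ∑ z ∈ Ico a (a + t), (if y < z then (1 : ℝ) else 0) = t * (t - 1) / 2 := by
  induction t with
  | zero => simp
  | succ t ih =>
    rw [← add_assoc, Finset.sum_Ico_succ_top (by omega)]
    have h1 : ∀ y ∈ Ico a (a + t), ∑ z ∈ Ico a (a + t + 1), (if y < z then (1 : ℝ) else 0) =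
        ∑ z ∈ Ico a (a + t), (if y < z then (1 : ℝ) else 0) + 1 := by
      intro y hy
      rw [Finset.sum_Ico_succ_top (by omega), if_pos (mem_Ico.1 hy).2]
    rw [Finset.sum_congr rfl h1, Finset.sum_add_distrib, ih]
    have h2 : ∑ z ∈ Ico a (a + t + 1), (if a + t < z then (1 : ℝ) else 0) = 0 := by
      apply Finset.sum_eq_zero
      intro z hz
      rw [if_neg]
      have := (mem_Ico.1 hz).2
      omega
    rw [h2]
    simp
    ring

/-- The three blocks. -/
def Y2 (k t : ℕ) : Finset ℕ := Ico ((3 * k - 1) * t) ((3 * k - 1) * t + t)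
def Y1 (k t : ℕ) : Finset ℕ := Ico ((3 * k + 1) * t) ((3 * k + 1) * t + t)
def Y3 (k t : ℕ) : Finset ℕ := Ico ((k - 1) * (3 * k) * t) ((k - 1) * (3 * k) * t + t)

/-- The block function. -/
noncomputable def psi (k t : ℕ) (y : ℕ) : ℝ :=
  if y ∈ Y2 k t then -1 else if y ∈ Y1 k t then 1 else if y ∈ Y3 k t then -(1 / (k : ℝ) ^ 2) else 0

def YY (k t : ℕ) : Finset ℕ := (Y2 k t ∪ Y1 k t) ∪ Y3 k t

section
variable {k t : ℕ}

theorem psi2 {y : ℕ} (h : y ∈ Y2 k t) : psi k t y = -1 := by rw [psi, if_pos h]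

theorem disj21 (hk : 3 ≤ k) {y : ℕ} (h : y ∈ Y2 k t) : y ∉ Y1 k t := by
  intro h'
  unfold Y2 at h
  unfold Y1 at h'
  rw [mem_Ico] at h h'
  have : (3 * k - 1) * t + t ≤ (3 * k + 1) * t := by
    obtain ⟨k', rfl⟩ : ∃ k', k = k' + 1 := ⟨k - 1, by omega⟩
    have : 3 * (k' + 1) - 1 = 3 * k' + 2 := by omega
    rw [this]
    nlinarith
  omega

theorem lt13 (hk : 3 ≤ k) {y z : ℕ} (h : y ∈ Y1 k t) (h' : z ∈ Y3 k t) : y < z := by
  unfold Y1 at h
  unfold Y3 at h'
  rw [mem_Ico] at h h'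
  obtain ⟨k', rfl⟩ : ∃ k', k = k' + 3 := ⟨k - 3, by omega⟩
  have : (3 * (k' + 3) + 1) * t + t ≤ (k' + 3 - 1) * (3 * (k' + 3)) * t := by
    have h3 : k' + 3 - 1 = k' + 2 := by omega
    rw [h3]
    have : (3 * (k' + 3) + 1) + 1 ≤ (k' + 2) * (3 * (k' + 3)) := by nlinarith
    calc (3 * (k' + 3) + 1) * t + t = ((3 * (k' + 3) + 1) + 1) * t := by ring
      _ ≤ _ := Nat.mul_le_mul_right _ this
  omega

theorem lt21 (hk : 3 ≤ k) {y z : ℕ} (h : y ∈ Y2 k t) (h' : z ∈ Y1 k t) : y < z := by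
  unfold Y2 at h
  unfold Y1 at h'
  rw [mem_Ico] at h h'
  have : (3 * k - 1) * t + t ≤ (3 * k + 1) * t := by
    obtain ⟨k', rfl⟩ : ∃ k', k = k' + 1 := ⟨k - 1, by omega⟩
    have : 3 * (k' + 1) - 1 = 3 * k' + 2 := by omega
    rw [this]
    nlinarith
  omega

theorem lt23 (hk : 3 ≤ k) {y z : ℕ} (h : y ∈ Y2 k t) (h' : z ∈ Y3 k t) : y < z := by
  unfold Y2 at h
  unfold Y3 at h'
  rw [mem_Ico] at h h'
  obtain ⟨k', rfl⟩ : ∃ k', k = k' + 3 := ⟨k - 3, by omega⟩
  have : (3 * (k' + 3) - 1) * t + t ≤ (k' + 3 - 1) * (3 * (k' + 3)) * t := by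
    have h3 : k' + 3 - 1 = k' + 2 := by omega
    have h4 : 3 * (k' + 3) - 1 = 3 * k' + 8 := by omega
    rw [h3, h4]
    have : (3 * k' + 8) + 1 ≤ (k' + 2) * (3 * (k' + 3)) := by nlinarith
    calc (3 * k' + 8) * t + t = ((3 * k' + 8) + 1) * t := by ring
      _ ≤ _ := Nat.mul_le_mul_right _ this
  omega

theorem psi1 (hk : 3 ≤ k) {y : ℕ} (h : y ∈ Y1 k t) : psi k t y = 1 := by
  rw [psi, if_neg (fun h' => disj21 hk h' h), if_pos h]

theorem psi3 (hk : 3 ≤ k) {y : ℕ} (h : y ∈ Y3 k t) : psi k t y = -(1 / (k : ℝ) ^ 2) := by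
  rw [psi, if_neg (fun h' => absurd (lt23 hk h' h) (lt_irrefl _)),
    if_neg (fun h' => absurd (lt13 hk h' h) (lt_irrefl _)), if_pos h]

/-- The contribution of the positions `i < j`. -/
noncomputable def Tij (k t i j : ℕ) : ℝ :=
  ∑ q ∈ (YY k t ×ˢ YY k t).filter (fun q => q.1 < q.2 ∧ i * q.2 < j * q.1),
    psi k t q.1 * psi k t q.2

theorem card2 : (Y2 k t).card = t := by unfold Y2; simp
theorem card1 : (Y1 k t).card = t := by unfold Y1; simp
theorem card3 : (Y3 k t).card = t := by unfold Y3; simp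

theorem block_le {A B : Finset ℕ} {G : ℕ → ℕ → ℝ} {c : ℝ} (hA : A.card = t) (hB : B.card = t)
    (h : ∀ y ∈ A, ∀ z ∈ B, G y z ≤ c) : ∑ y ∈ A, ∑ z ∈ B, G y z ≤ c * t ^ 2 := by
  calc ∑ y ∈ A, ∑ z ∈ B, G y z ≤ ∑ y ∈ A, ∑ z ∈ B, c :=
        Finset.sum_le_sum fun y hy => Finset.sum_le_sum fun z hz => h y hy z hz
    _ = c * t ^ 2 := by
        simp [hA, hB]
        ring

theorem Tij_le (hk : 3 ≤ k) {i j : ℕ} (hij : i < j) (hj : j < k) :
    Tij k t i j ≤ (1 / (k : ℝ) ^ 2) ^ 2 * t ^ 2 -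
      (if i = 1 ∧ j = k - 1 then (1 / (k : ℝ) ^ 2) * t ^ 2 else 0) := by
  set lam : ℝ := 1 / (k : ℝ) ^ 2 with hlam
  have hk0 : (0 : ℝ) < k := by
    have : 0 < k := by omega
    exact_mod_cast this
  have hlam0 : 0 < lam := by positivity
  set G : ℕ → ℕ → ℝ := fun y z =>
    if y < z ∧ i * z < j * y then psi k t y * psi k t z else 0 with hG
  have e1 : Tij k t i j = ∑ y ∈ YY k t, ∑ z ∈ YY k t, G y z := by
    rw [Tij, Finset.sum_filter, Finset.sum_product]
  have d12 : Disjoint (Y2 k t) (Y1 k t) := by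
    rw [Finset.disjoint_left]
    exact fun y h => disj21 hk h
  have d3 : Disjoint (Y2 k t ∪ Y1 k t) (Y3 k t) := by
    rw [Finset.disjoint_left]
    intro y h h'
    rw [mem_union] at h
    rcases h with h | h
    · exact absurd (lt23 hk h h') (lt_irrefl _)
    · exact absurd (lt13 hk h h') (lt_irrefl _)
  have hs : ∀ g : ℕ → ℝ, ∑ z ∈ YY k t, g z = ∑ z ∈ Y2 k t, g z + ∑ z ∈ Y1 k t, g z +
      ∑ z ∈ Y3 k t, g z := by
    intro g
    rw [YY, Finset.sum_union d3, Finset.sum_union d12]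
  rw [e1, hs]
  simp only [hs]
  simp only [Finset.sum_add_distrib]
  -- the nine blocks
  have b22 : ∑ y ∈ Y2 k t, ∑ z ∈ Y2 k t, G y z ≤ (t : ℝ) * (t - 1) / 2 := by
    rw [← tri ((3 * k - 1) * t) t]
    apply Finset.sum_le_sum
    intro y hy
    apply Finset.sum_le_sum
    intro z hz
    rw [hG]
    simp only
    rw [psi2 hy, psi2 hz]
    split_ifs with h1 h2 h2
    · norm_num
    · exact absurd h1.1 h2
    · norm_num
    · norm_num
  have b11 : ∑ y ∈ Y1 k t, ∑ z ∈ Y1 k t, G y z ≤ (t : ℝ) * (t - 1) / 2 := by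
    rw [← tri ((3 * k + 1) * t) t]
    apply Finset.sum_le_sum
    intro y hy
    apply Finset.sum_le_sum
    intro z hz
    rw [hG]
    simp only
    rw [psi1 hk hy, psi1 hk hz]
    split_ifs with h1 h2 h2
    · norm_num
    · exact absurd h1.1 h2
    · norm_num
    · norm_num
  have b21 : ∑ y ∈ Y2 k t, ∑ z ∈ Y1 k t, G y z ≤ (-1) * (t : ℝ) ^ 2 := by
    apply block_le card2 card1
    intro y hy z hz
    rw [hG]
    simp only
    have hyz := lt21 hk hy hz
    rw [psi2 hy, psi1 hk hz, if_pos]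
    · norm_num
    · refine ⟨hyz, ?_⟩
      unfold Y2 at hy
      unfold Y1 at hz
      rw [mem_Ico] at hy hz
      have ht : 0 < t := by
        by_contra h0
        have : t = 0 := by omega
        subst this
        simp at hz
      -- `i z ≤ (j - 1) z < j y`
      obtain ⟨k', rfl⟩ : ∃ k', k = k' + 3 := ⟨k - 3, by omega⟩
      have e2 : 3 * (k' + 3) - 1 = 3 * k' + 8 := by omega
      have e3 : 3 * (k' + 3) + 1 = 3 * k' + 10 := by omega
      rw [e2] at hy
      rw [e3] at hz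
      obtain ⟨j', rfl⟩ : ∃ j', j = j' + 1 := ⟨j - 1, by omega⟩
      have hi : i ≤ j' := by omega
      have hj' : j' ≤ k' + 1 := by omega
      calc i * z ≤ j' * z := Nat.mul_le_mul_right _ hi
        _ < (j' + 1) * y := by
          have h1 : j' * z ≤ j' * (y + 3 * t) := by
            apply Nat.mul_le_mul_left
            nlinarith [hy.1, hz.2]
          have h2 : j' * (3 * t) < y := by
            calc j' * (3 * t) ≤ (k' + 1) * (3 * t) := Nat.mul_le_mul_right _ hj'
              _ < (3 * k' + 8) * t := by nlinarith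
              _ ≤ y := hy.1
          calc j' * z ≤ j' * (y + 3 * t) := h1
            _ = j' * y + j' * (3 * t) := by ring
            _ < j' * y + y := by omega
            _ = (j' + 1) * y := by ring
  have b12 : ∑ y ∈ Y1 k t, ∑ z ∈ Y2 k t, G y z ≤ 0 * (t : ℝ) ^ 2 := by
    apply block_le card1 card2
    intro y hy z hz
    rw [hG]
    simp only
    rw [if_neg (fun h => absurd (h.1.trans (lt21 hk hz hy)) (lt_irrefl _))]
  have b32 : ∑ y ∈ Y3 k t, ∑ z ∈ Y2 k t, G y z ≤ 0 * (t : ℝ) ^ 2 := by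
    apply block_le card3 card2
    intro y hy z hz
    rw [hG]
    simp only
    rw [if_neg (fun h => absurd (h.1.trans (lt23 hk hz hy)) (lt_irrefl _))]
  have b31 : ∑ y ∈ Y3 k t, ∑ z ∈ Y1 k t, G y z ≤ 0 * (t : ℝ) ^ 2 := by
    apply block_le card3 card1
    intro y hy z hz
    rw [hG]
    simp only
    rw [if_neg (fun h => absurd (h.1.trans (lt13 hk hz hy)) (lt_irrefl _))]
  have b33 : ∑ y ∈ Y3 k t, ∑ z ∈ Y3 k t, G y z ≤ lam ^ 2 * (t : ℝ) ^ 2 := by
    apply block_le card3 card3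
    intro y hy z hz
    rw [hG]
    simp only
    rw [psi3 hk hy, psi3 hk hz]
    split_ifs
    · apply le_of_eq
      ring
    · positivity
  have b23 : ∑ y ∈ Y2 k t, ∑ z ∈ Y3 k t, G y z ≤ (if i = 0 then lam else 0) * (t : ℝ) ^ 2 := by
    apply block_le card2 card3
    intro y hy z hz
    rw [hG]
    simp only
    rw [psi2 hy, psi3 hk hz]
    split_ifs with h1 h2 h2
    · linarith
    · exfalso
      unfold Y2 at hy
      unfold Y3 at hz
      rw [mem_Ico] at hy hz
      obtain ⟨k', rfl⟩ : ∃ k', k = k' + 3 := ⟨k - 3, by omega⟩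
      have e2 : 3 * (k' + 3) - 1 = 3 * k' + 8 := by omega
      have e3 : k' + 3 - 1 = k' + 2 := by omega
      rw [e2] at hy
      rw [e3] at hz
      have h3 : j * y ≤ (k' + 2) * y := Nat.mul_le_mul_right _ (by omega)
      have h4 : (k' + 2) * y ≤ z := by
        calc (k' + 2) * y ≤ (k' + 2) * ((3 * k' + 8) * t + t) := Nat.mul_le_mul_left _ hy.2.le
          _ = (k' + 2) * (3 * (k' + 3)) * t := by ring
          _ ≤ z := hz.1
      have h5 : z ≤ i * z := Nat.le_mul_of_pos_left _ (by omega)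
      have := h1.2
      omega
    · exact hlam0.le
    · norm_num
  have b13 : ∑ y ∈ Y1 k t, ∑ z ∈ Y3 k t, G y z ≤
      (if i = 0 then -lam else if i = 1 ∧ j = k - 1 then -lam else 0) * (t : ℝ) ^ 2 := by
    apply block_le card1 card3
    intro y hy z hz
    rw [hG]
    simp only
    have hyz := lt13 hk hy hz
    have hy0 : 0 < y := by
      unfold Y1 at hy
      rw [mem_Ico] at hy
      have ht : 0 < t := by
        by_contra h0
        have : t = 0 := by omega
        subst this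
        simp at hy
      have : 0 < (3 * k + 1) * t := by positivity
      omega
    rw [psi1 hk hy, psi3 hk hz]
    by_cases hi0 : i = 0
    · rw [if_pos hi0, if_pos]
      · linarith
      · refine ⟨hyz, ?_⟩
        rw [hi0, zero_mul]
        exact Nat.mul_pos (by omega) hy0
    · rw [if_neg hi0]
      by_cases hi1 : i = 1 ∧ j = k - 1
      · rw [if_pos hi1, if_pos]
        · linarith
        · refine ⟨hyz, ?_⟩
          rw [hi1.1, hi1.2, one_mul]
          unfold Y1 at hy
          unfold Y3 at hz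
          rw [mem_Ico] at hy hz
          obtain ⟨k', rfl⟩ : ∃ k', k = k' + 3 := ⟨k - 3, by omega⟩
          have e3 : k' + 3 - 1 = k' + 2 := by omega
          rw [e3] at hz ⊢
          calc z < (k' + 2) * (3 * (k' + 3)) * t + t := hz.2
            _ ≤ (k' + 2) * ((3 * (k' + 3) + 1) * t) := by nlinarith
            _ ≤ (k' + 2) * y := Nat.mul_le_mul_left _ hy.1
      · rw [if_neg hi1]
        split_ifs
        · linarith
        · norm_num
  have ht0 : (0 : ℝ) ≤ t := Nat.cast_nonneg _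
  by_cases hi0 : i = 0
  · rw [if_pos hi0] at b23 b13
    rw [if_neg (by omega)]
    nlinarith
  · rw [if_neg hi0] at b23 b13
    by_cases hi1 : i = 1 ∧ j = k - 1
    · rw [if_pos hi1] at b13 ⊢
      nlinarith
    · rw [if_neg hi1] at b13 ⊢
      nlinarith

theorem Tsum_le (hk : 3 ≤ k) :
    ∑ j ∈ range k, ∑ i ∈ range j, Tij k t i j ≤ -(1 / (2 * (k : ℝ) ^ 2)) * t ^ 2 := by
  have hk0 : (0 : ℝ) < k := by
    have : 0 < k := by omega
    exact_mod_cast this
  calc ∑ j ∈ range k, ∑ i ∈ range j, Tij k t i j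
      ≤ ∑ j ∈ range k, ∑ i ∈ range j, ((1 / (k : ℝ) ^ 2) ^ 2 * t ^ 2 -
      (if i = 1 ∧ j = k - 1 then (1 / (k : ℝ) ^ 2) * t ^ 2 else 0)) :=
        Finset.sum_le_sum fun j hj => Finset.sum_le_sum fun i hi =>
          Tij_le hk (mem_range.1 hi) (mem_range.1 hj)
    _ = (∑ j ∈ range k, (j : ℝ)) * ((1 / (k : ℝ) ^ 2) ^ 2 * t ^ 2) - (1 / (k : ℝ) ^ 2) * t ^ 2 := by
        simp only [Finset.sum_sub_distrib]
        congr 1
        · rw [Finset.sum_mul]
          apply Finset.sum_congr rfl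
          intro j _
          simp
        · rw [Finset.sum_eq_single (k - 1)]
          · rw [Finset.sum_eq_single 1]
            · simp
            · intro i _ hi
              rw [if_neg (by tauto)]
            · intro h
              exact absurd (mem_range.2 (by omega)) h
          · intro j _ hj
            apply Finset.sum_eq_zero
            intro i _
            rw [if_neg (by tauto)]
          · intro h
            exact absurd (mem_range.2 (by omega)) h
    _ ≤ ((k : ℝ) ^ 2 / 2) * ((1 / (k : ℝ) ^ 2) ^ 2 * t ^ 2) - (1 / (k : ℝ) ^ 2) * t ^ 2 := by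
        have h1 : (∑ j ∈ range k, (j : ℝ)) ≤ (k : ℝ) ^ 2 / 2 := by
          have h2 := Finset.sum_range_id_mul_two k
          have h3 : ((∑ i ∈ range k, i : ℕ) : ℝ) * 2 = (k : ℝ) * ((k - 1 : ℕ) : ℝ) := by
            exact_mod_cast h2
          have h4 : ((k - 1 : ℕ) : ℝ) ≤ k := by
            have : k - 1 ≤ k := by omega
            exact_mod_cast this
          push_cast at h3
          nlinarith
        have h5 : 0 ≤ ((1 / (k : ℝ) ^ 2) ^ 2 * (t : ℝ) ^ 2) := by positivity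
        have := mul_le_mul_of_nonneg_right h1 h5
        linarith
    _ = -(1 / (2 * (k : ℝ) ^ 2)) * t ^ 2 := by
        field_simp
        ring

end

end Pool.Agent.N476.BR
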