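import Mathlib

set_option autoImplicit false

/-!
# Averaging over random colourings, and the second order term
-/

namespace Pool.Agent.N476.BR

open Finset

/-- Existence of a colouring that is at least as good as a random one. -/
theorem exists_coloring {α : Type*} [Fintype α] [DecidableEq α] {r : ℕ} (w : α → Fin r → ℝ)
    (hw0 : ∀ x c, 0 ≤ w x c) (hw1 : ∀ x, ∑ c, w x c = 1) {ι : Type*} (s : Finset ι)
    (Q : ι → Finset α) :
    ∃ f : α → Fin r, ∑ i ∈ s, (if ∃ c, ∀ x ∈ Q i, f x = c then (1 : ℝ) else 0) ≤
      ∑ i ∈ s, ∑ c, ∏ x ∈ Q i, w x c := by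
  classical
  by_contra hcon
  push Not at hcon
  set W : (α → Fin r) → ℝ := fun f => ∏ x, w x (f x) with hW
  have hW0 : ∀ f, 0 ≤ W f := fun f => Finset.prod_nonneg fun x _ => hw0 x _
  have hgen : ∀ g : α → Fin r → ℝ, ∑ f : α → Fin r, ∏ x, g x (f x) = ∏ x, ∑ c, g x c := by
    intro g
    rw [Finset.prod_univ_sum, Fintype.piFinset_univ]
  have hW1 : ∑ f, W f = 1 := by
    rw [hW, hgen]
    exact Finset.prod_eq_one fun x _ => hw1 x
  have hind : ∀ (T : Finset α) (c : Fin r),
      ∑ f : α → Fin r, W f * (if ∀ x ∈ T, f x = c then (1 : ℝ) else 0) = ∏ x ∈ T, w x c := by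
    intro T c
    have h1 : ∀ f : α → Fin r, W f * (if ∀ x ∈ T, f x = c then (1 : ℝ) else 0) =
        ∏ x, (w x (f x) * (if x ∈ T then (if f x = c then 1 else 0) else 1)) := by
      intro f
      rw [Finset.prod_mul_distrib]
      congr 1
      rw [Finset.prod_ite_mem]
      split_ifs with h
      · symm
        apply Finset.prod_eq_one
        intro x hx
        rw [Finset.mem_inter] at hx
        rw [if_pos (h x hx.2)]
      · push Not at h
        obtain ⟨x, hx, hne⟩ := h
        symm
        apply Finset.prod_eq_zero (i := x)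
        · simpa using hx
        · rw [if_neg hne]
    rw [Finset.sum_congr rfl fun f _ => h1 f]
    rw [hgen (fun x c' => w x c' * (if x ∈ T then (if c' = c then 1 else 0) else 1))]
    have h2 : ∀ x, ∑ c', w x c' * (if x ∈ T then (if c' = c then (1 : ℝ) else 0) else 1) =
        if x ∈ T then w x c else 1 := by
      intro x
      split_ifs with h
      · simp
      · simp [hw1]
    rw [Finset.prod_congr rfl fun x _ => h2 x, Finset.prod_ite_mem]
    simp
  set R := ∑ i ∈ s, ∑ c, ∏ x ∈ Q i, w x c with hR
  set Lf : (α → Fin r) → ℝ := fun f =>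
    ∑ i ∈ s, (if ∃ c, ∀ x ∈ Q i, f x = c then (1 : ℝ) else 0) with hL
  have h1 : ∑ f, W f * R = R := by rw [← Finset.sum_mul, hW1, one_mul]
  have h2 : ∑ f, W f * R < ∑ f, W f * Lf f := by
    apply Finset.sum_lt_sum
    · intro f _
      exact mul_le_mul_of_nonneg_left (hcon f).le (hW0 f)
    · have : ∃ f ∈ (Finset.univ : Finset (α → Fin r)), 0 < W f := by
        by_contra hne
        push Not at hne
        have : ∑ f, W f ≤ 0 := Finset.sum_nonpos fun f hf => hne f hf
        linarith
      obtain ⟨f, hf, hpos⟩ := this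
      exact ⟨f, hf, mul_lt_mul_of_pos_left (hcon f) hpos⟩
  have h3 : ∑ f, W f * Lf f ≤ R := by
    have h4 : ∀ f, W f * Lf f ≤ ∑ i ∈ s, ∑ c, W f * (if ∀ x ∈ Q i, f x = c then (1 : ℝ) else 0) := by
      intro f
      rw [hL]
      simp only
      rw [Finset.mul_sum]
      apply Finset.sum_le_sum
      intro i _
      rw [← Finset.mul_sum]
      apply mul_le_mul_of_nonneg_left _ (hW0 f)
      split_ifs with h
      · obtain ⟨c, hc⟩ := h
        have h5 : (if ∀ x ∈ Q i, f x = c then (1 : ℝ) else 0) = 1 := by rw [if_pos hc]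
        have h6 := Finset.single_le_sum (f := fun c => (if ∀ x ∈ Q i, f x = c then (1 : ℝ) else 0))
          (s := Finset.univ) (fun c _ => by split_ifs <;> norm_num) (Finset.mem_univ c)
        rw [h5] at h6
        exact h6
      · apply Finset.sum_nonneg
        intro c _
        split_ifs <;> norm_num
    calc ∑ f, W f * Lf f ≤ ∑ f, ∑ i ∈ s, ∑ c, W f * (if ∀ x ∈ Q i, f x = c then (1 : ℝ) else 0) :=
          Finset.sum_le_sum fun f _ => h4 f
      _ = ∑ i ∈ s, ∑ c, ∑ f, W f * (if ∀ x ∈ Q i, f x = c then (1 : ℝ) else 0) := by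
          rw [Finset.sum_comm]
          apply Finset.sum_congr rfl
          intro i _
          rw [Finset.sum_comm]
      _ = R := by
          rw [hR]
          apply Finset.sum_congr rfl
          intro i _
          apply Finset.sum_congr rfl
          intro c _
          exact hind _ _
  linarith

/-- Products over pairs, written out. -/
theorem sum_powersetCard_two (g : ℕ → ℝ) (k : ℕ) :
    ∑ T ∈ Finset.powersetCard 2 (range k), ∏ i ∈ T, g i =
      ∑ j ∈ range k, ∑ i ∈ range j, g i * g j := by
  induction k with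
  | zero => rfl
  | succ k ih =>
    rw [Finset.sum_range_succ, ← ih, Finset.range_add_one,
      Finset.powersetCard_succ_insert Finset.notMem_range_self]
    rw [Finset.sum_union]
    · congr 1
      rw [Finset.sum_image]
      · rw [Finset.powersetCard_one, Finset.sum_map]
        apply Finset.sum_congr rfl
        intro i hi
        have hne : k ≠ i := by
          have := Finset.mem_range.1 hi
          omega
        simp only [Function.Embedding.coeFn_mk]
        rw [Finset.prod_pair hne, mul_comm]
      · intro a ha b hb hab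
        rw [Finset.mem_coe, Finset.mem_powersetCard] at ha hb
        have h1 : k ∉ a := fun h => by
          have := ha.1 h
          simp at this
        have h2 : k ∉ b := fun h => by
          have := hb.1 h
          simp at this
        have := congrArg (fun T => Finset.erase T k) hab
        simp only [Finset.erase_insert h1, Finset.erase_insert h2] at this
        exact this
    · rw [Finset.disjoint_left]
      intro a ha hb
      rw [Finset.mem_powersetCard] at ha
      rw [Finset.mem_image] at hb
      obtain ⟨b, _, rfl⟩ := hb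
      have := ha.1 (Finset.mem_insert_self k b)
      simp at this

/-- The second order expansion. -/
theorem two_sided (g : ℕ → ℝ) (k : ℕ) (δ : ℝ) (hδ0 : 0 ≤ δ) (hδ1 : δ ≤ 1)
    (hg : ∀ i, |g i| ≤ 1) :
    ∏ i ∈ range k, (1 + δ * g i) + ∏ i ∈ range k, (1 + (-δ) * g i) ≤
      2 + 2 * δ ^ 2 * (∑ j ∈ range k, ∑ i ∈ range j, g i * g j) + 2 ^ (k + 1) * δ ^ 4 := by
  rw [Finset.prod_one_add, Finset.prod_one_add, ← Finset.sum_add_distrib]
  have hterm : ∀ T ∈ (range k).powerset,
      ∏ i ∈ T, δ * g i + ∏ i ∈ T, -δ * g i ≤
        (if T.card = 0 then 2 else 0) + (if T.card = 2 then 2 * δ ^ 2 * ∏ i ∈ T, g i else 0)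
          + 2 * δ ^ 4 := by
    intro T _
    have hP : |∏ i ∈ T, g i| ≤ 1 := by
      rw [Finset.abs_prod]
      exact Finset.prod_le_one (fun i _ => abs_nonneg _) fun i _ => hg i
    have hP1 := (abs_le.1 hP).1
    have hP2 := (abs_le.1 hP).2
    rw [Finset.prod_mul_distrib, Finset.prod_mul_distrib, Finset.prod_const, Finset.prod_const]
    have h4 : 0 ≤ δ ^ 4 := by positivity
    rcases Nat.even_or_odd T.card with he | ho
    · rw [he.neg_pow]
      obtain ⟨m, hm⟩ := he
      rcases Nat.lt_or_ge m 2 with h | h
      · interval_cases m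
        · have h0 : T.card = 0 := by omega
          have hT : T = ∅ := Finset.card_eq_zero.1 h0
          subst hT
          simp
          linarith
        · have h2 : T.card = 2 := by omega
          rw [if_neg (by omega), if_pos h2, h2]
          linarith
      · rw [if_neg (by omega), if_neg (by omega)]
        have h5 : δ ^ T.card ≤ δ ^ 4 := pow_le_pow_of_le_one hδ0 hδ1 (by omega)
        have h6 : 0 ≤ δ ^ T.card := by positivity
        nlinarith
    · rw [ho.neg_pow]
      have : T.card ≠ 0 := by
        rintro h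
        rw [h] at ho
        exact absurd ho (by decide)
      have h2 : T.card ≠ 2 := by
        rintro h
        rw [h] at ho
        exact absurd ho (by decide)
      rw [if_neg this, if_neg h2]
      linarith
  refine (Finset.sum_le_sum hterm).trans ?_
  rw [Finset.sum_add_distrib, Finset.sum_add_distrib, Finset.sum_const, Finset.card_powerset,
    Finset.card_range]
  have h0 : ∑ T ∈ (range k).powerset, (if T.card = 0 then (2 : ℝ) else 0) = 2 := by
    rw [Finset.sum_eq_single ∅]
    · simp
    · intro T _ hT
      rw [if_neg]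
      rwa [Finset.card_eq_zero]
    · intro h
      exact absurd (Finset.empty_mem_powerset _) h
  have h2 : ∑ T ∈ (range k).powerset, (if T.card = 2 then 2 * δ ^ 2 * ∏ i ∈ T, g i else 0) =
      2 * δ ^ 2 * (∑ j ∈ range k, ∑ i ∈ range j, g i * g j) := by
    rw [← Finset.sum_filter, ← sum_powersetCard_two, Finset.mul_sum]
    apply Finset.sum_congr _ fun _ _ => rfl
    ext T
    rw [Finset.mem_filter, Finset.mem_powerset, Finset.mem_powersetCard]
  rw [h0, h2, nsmul_eq_mul]
  have : ((2 ^ k : ℕ) : ℝ) * (2 * δ ^ 4) = 2 ^ (k + 1) * δ ^ 4 := by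
    push_cast
    ring
  rw [this]

end Pool.Agent.N476.BR
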