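import Mathlib
import Pool.Agent.N476.BR.Random
import Pool.Agent.N476.BR.Pairs
import Pool.Agent.N476.BR.Negative
import Pool.Agent.N476.BR.Count

set_option autoImplicit false

/-!
# Colourings with fewer monochromatic progressions than random ones
-/

namespace Pool.Agent.N476.BR

open Finset

/-- The perturbation. -/
noncomputable def phi (k t : ℕ) (x : ℕ) : ℝ :=
  if k.factorial ∣ x then psi k t (x / k.factorial) else 0

theorem abs_psi_le (k t y : ℕ) (hk : 3 ≤ k) : |psi k t y| ≤ 1 := by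
  unfold psi
  split_ifs
  · simp
  · simp
  · rw [abs_neg, abs_of_nonneg (by positivity), div_le_one]
    · have : (1 : ℝ) ≤ k := by
        have : 1 ≤ k := by omega
        exact_mod_cast this
      nlinarith
    · have : (0 : ℝ) < k := by
        have : 0 < k := by omega
        exact_mod_cast this
      positivity
  · simp

theorem abs_phi_le (k t x : ℕ) (hk : 3 ≤ k) : |phi k t x| ≤ 1 := by
  unfold phi
  split_ifs
  · exact abs_psi_le k t _ hk
  · simp

theorem phi_ne (k t x : ℕ) (h : phi k t x ≠ 0) : ∃ y ∈ YY k t, x = k.factorial * y := by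
  unfold phi at h
  split_ifs at h with h1
  · refine ⟨x / k.factorial, ?_, (Nat.mul_div_cancel' h1).symm⟩
    unfold psi at h
    unfold YY
    rw [mem_union, mem_union]
    split_ifs at h <;> tauto
  · exact absurd rfl h

theorem phi_mul (k t y : ℕ) : phi k t (k.factorial * y) = psi k t y := by
  unfold phi
  rw [if_pos (dvd_mul_right _ _), Nat.mul_div_cancel_left _ (Nat.factorial_pos k)]

theorem YY_bound {k t : ℕ} (hk : 3 ≤ k) (ht : 1 ≤ t) {y : ℕ} (hy : y ∈ YY k t) :
    1 ≤ y ∧ y ≤ 3 * k ^ 2 * t := by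
  unfold YY Y1 Y2 Y3 at hy
  rw [mem_union, mem_union, mem_Ico, mem_Ico, mem_Ico] at hy
  obtain ⟨k', rfl⟩ : ∃ k', k = k' + 3 := ⟨k - 3, by omega⟩
  have e2 : 3 * (k' + 3) - 1 = 3 * k' + 8 := by omega
  have e3 : k' + 3 - 1 = k' + 2 := by omega
  rw [e2, e3] at hy
  rcases hy with (hy | hy) | hy
  · constructor
    · nlinarith [hy.1]
    · nlinarith [hy.2]
  · constructor
    · nlinarith [hy.1]
    · nlinarith [hy.2]
  · constructor
    · have : 1 ≤ (k' + 2) * (3 * (k' + 3)) * t := by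
        have : 0 < (k' + 2) * (3 * (k' + 3)) * t := by positivity
        omega
      omega
    · have : (k' + 2) * (3 * (k' + 3)) * t + t ≤ 3 * (k' + 3) ^ 2 * t := by nlinarith
      omega

/-- The second order term over all progressions. -/
theorem second_order {k n t : ℕ} (hk : 3 ≤ k) (ht : 1 ≤ t)
    (hn : 3 * k ^ 3 * k.factorial * t ≤ n) :
    ∑ p ∈ S k n, ∑ j ∈ range k, ∑ i ∈ range j, phi k t (p.1 + i * p.2) * phi k t (p.1 + j * p.2) ≤
      -(1 / (2 * (k : ℝ) ^ 2)) * t ^ 2 := by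
  refine le_trans (le_of_eq ?_) (Tsum_le (t := t) hk)
  rw [Finset.sum_comm]
  apply Finset.sum_congr rfl
  intro j hj
  rw [Finset.sum_comm]
  apply Finset.sum_congr rfl
  intro i hi
  rw [mem_range] at hi hj
  have hdvd : j - i ∣ k.factorial := Nat.dvd_factorial (by omega) (by omega)
  obtain ⟨e, he⟩ := hdvd
  have he1 : 1 ≤ e := by
    by_contra h
    have : e = 0 := by omega
    rw [this, mul_zero] at he
    exact absurd he (Nat.factorial_ne_zero k)
  rw [pair_sum (L := k.factorial) (e := e) (by omega) hi hj he1 (by rw [he, mul_comm]) (YY k t)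
    ?_ (phi k t) (phi_ne k t)]
  · simp only [phi_mul]
    rfl
  · intro y hy
    obtain ⟨h1, h2⟩ := YY_bound hk ht hy
    refine ⟨h1, ?_⟩
    calc k.factorial * k * y ≤ k.factorial * k * (3 * k ^ 2 * t) := Nat.mul_le_mul_left _ h2
      _ = 3 * k ^ 3 * k.factorial * t := by ring
      _ ≤ n := hn

/-- Existence of a colouring from the perturbed random colouring. -/
theorem low_coloring {k n t r : ℕ} (hk : 3 ≤ k) (ht : 1 ≤ t)
    (hn : 3 * k ^ 3 * k.factorial * t ≤ n) (δ : ℝ) (hδ0 : 0 ≤ δ) (hδ1 : δ ≤ 1) :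
    ∃ χ : ℕ → Fin (r + 2), (cnt k n χ : ℝ) ≤ (1 / ((r : ℝ) + 2)) ^ k *
      (((r : ℝ) + 2) * (S k n).card - δ ^ 2 * (1 / (k : ℝ) ^ 2) * t ^ 2 +
        2 ^ (k + 1) * δ ^ 4 * (S k n).card) := by
  classical
  have hr : (0 : ℝ) < (r : ℝ) + 2 := by positivity
  set eps : Fin (r + 2) → ℝ := fun c => if (c : ℕ) = 0 then δ else if (c : ℕ) = 1 then -δ else 0
    with heps
  have hsum : ∀ F : ℝ → ℝ, ∑ c, F (eps c) = F δ + F (-δ) + r * F 0 := by
    intro F
    rw [Fin.sum_univ_succ, Fin.sum_univ_succ]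
    have h1 : eps 0 = δ := by simp [heps]
    have h2 : eps (Fin.succ 0) = -δ := by simp [heps]
    have h3 : ∀ i : Fin r, eps i.succ.succ = 0 := by
      intro i
      simp [heps]
    rw [h1, h2]
    simp only [h3]
    simp
    ring
  set w : Fin (n + 1) → Fin (r + 2) → ℝ := fun x c =>
    (1 / ((r : ℝ) + 2)) * (1 + eps c * phi k t x) with hw
  have hepsabs : ∀ c, |eps c| ≤ δ := by
    intro c
    simp only [heps]
    split_ifs
    · rw [abs_of_nonneg hδ0]
    · rw [abs_neg, abs_of_nonneg hδ0]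
    · simpa using hδ0
  have hw0 : ∀ x c, 0 ≤ w x c := by
    intro x c
    simp only [hw]
    apply mul_nonneg (by positivity)
    have h1 : |eps c * phi k t x| ≤ 1 := by
      rw [abs_mul]
      calc |eps c| * |phi k t x| ≤ δ * 1 :=
            mul_le_mul (hepsabs c) (abs_phi_le k t x hk) (abs_nonneg _) hδ0
        _ ≤ 1 := by linarith
    have := (abs_le.1 h1).1
    linarith
  have hw1 : ∀ x, ∑ c, w x c = 1 := by
    intro x
    simp only [hw]
    rw [← Finset.mul_sum, hsum (fun e => 1 + e * phi k t x)]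
    field_simp
    ring
  set Q : ℕ × ℕ → Finset (Fin (n + 1)) := fun p =>
    (range k).image (fun i => Fin.ofNat (n + 1) (p.1 + i * p.2)) with hQ
  obtain ⟨f, hf⟩ := exists_coloring w hw0 hw1 (S k n) Q
  refine ⟨fun x => f (Fin.ofNat (n + 1) x), ?_⟩
  have hval : ∀ p ∈ S k n, ∀ i < k, ((Fin.ofNat (n + 1) (p.1 + i * p.2) : Fin (n + 1)) : ℕ) =
      p.1 + i * p.2 := by
    intro p hp i hi
    have h1 := (mem_S (by omega) p).1 hp
    rw [Fin.val_ofNat]
    apply Nat.mod_eq_of_lt
    have : i * p.2 ≤ (k - 1) * p.2 := Nat.mul_le_mul_right _ (by omega)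
    omega
  have hleft : (cnt k n (fun x => f (Fin.ofNat (n + 1) x)) : ℝ) ≤
      ∑ i ∈ S k n, (if ∃ c, ∀ x ∈ Q i, f x = c then (1 : ℝ) else 0) := by
    unfold cnt
    rw [Finset.card_filter]
    push_cast
    apply Finset.sum_le_sum
    intro p _
    split_ifs with h1 h2 h2
    · exact le_refl _
    · exfalso
      apply h2
      refine ⟨f (Fin.ofNat (n + 1) p.1), ?_⟩
      intro x hx
      rw [hQ] at hx
      simp only [mem_image, mem_range] at hx
      obtain ⟨i, hi, rfl⟩ := hx
      exact h1 i hi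
    · norm_num
    · exact le_refl _
  refine hleft.trans (le_trans (le_of_eq ?_) (hf.trans ?_))
  · apply Finset.sum_congr rfl
    intro i _
    congr
  have hprod : ∀ p ∈ S k n, ∀ c, ∏ x ∈ Q p, w x c =
      (1 / ((r : ℝ) + 2)) ^ k * ∏ i ∈ range k, (1 + eps c * phi k t (p.1 + i * p.2)) := by
    intro p hp c
    rw [hQ]
    simp only
    rw [Finset.prod_image]
    · have : ∀ i ∈ range k, w (Fin.ofNat (n + 1) (p.1 + i * p.2)) c =
          (1 / ((r : ℝ) + 2)) * (1 + eps c * phi k t (p.1 + i * p.2)) := by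
        intro i hi
        simp only [hw]
        rw [hval p hp i (mem_range.1 hi)]
      rw [Finset.prod_congr rfl this, Finset.prod_mul_distrib]
      simp
    · intro i hi i' hi' h
      have h1 := congrArg (fun z : Fin (n + 1) => (z : ℕ)) h
      simp only at h1
      rw [hval p hp i (by simpa using hi), hval p hp i' (by simpa using hi')] at h1
      have h2 := ((mem_S (by omega) p).1 hp).2.1
      have h3 : i * p.2 = i' * p.2 := by omega
      exact Nat.eq_of_mul_eq_mul_right h2 h3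
  have hmain : ∀ p ∈ S k n, ∑ c, ∏ x ∈ Q p, w x c ≤ (1 / ((r : ℝ) + 2)) ^ k *
      (((r : ℝ) + 2) + 2 * δ ^ 2 * (∑ j ∈ range k, ∑ i ∈ range j,
        phi k t (p.1 + i * p.2) * phi k t (p.1 + j * p.2)) + 2 ^ (k + 1) * δ ^ 4) := by
    intro p hp
    rw [Finset.sum_congr rfl fun c _ => hprod p hp c, ← Finset.mul_sum]
    apply mul_le_mul_of_nonneg_left _ (by positivity)
    rw [hsum (fun e => ∏ i ∈ range k, (1 + e * phi k t (p.1 + i * p.2)))]
    have h1 := two_sided (fun i => phi k t (p.1 + i * p.2)) k δ hδ0 hδ1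
      (fun i => abs_phi_le k t _ hk)
    simp only [zero_mul, add_zero, Finset.prod_const_one, mul_one]
    linarith
  refine (Finset.sum_le_sum hmain).trans ?_
  rw [← Finset.mul_sum]
  apply mul_le_mul_of_nonneg_left _ (by positivity)
  rw [Finset.sum_add_distrib, Finset.sum_add_distrib, ← Finset.mul_sum]
  simp only [Finset.sum_const, nsmul_eq_mul]
  have h2 := second_order (n := n) (t := t) hk ht hn
  have h3 : 0 ≤ 2 * δ ^ 2 := by positivity
  have h4 := mul_le_mul_of_nonneg_left h2 h3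
  have h5 : 2 * δ ^ 2 * (-(1 / (2 * (k : ℝ) ^ 2)) * (t : ℝ) ^ 2) =
      -(δ ^ 2 * (1 / (k : ℝ) ^ 2) * t ^ 2) := by
    have : (k : ℝ) ≠ 0 := by
      have : k ≠ 0 := by omega
      exact_mod_cast this
    field_simp
  rw [h5] at h4
  linarith

end Pool.Agent.N476.BR
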