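import Mathlib
import Pool.Agent.N476.BR.Main

set_option autoImplicit false

/-!
# Assembly
-/

namespace Pool.Agent.N476.BR

open Finset

theorem cnt_le_card {r : ℕ} (k n : ℕ) (χ : ℕ → Fin r) : cnt k n χ ≤ (S k n).card :=
  Finset.card_le_card (Finset.filter_subset _ _)

theorem main_aux (k r : ℕ) (hk : 3 ≤ k) :
    ∃ δ : ℝ, δ < 1 / (2 * ((k : ℝ) - 1) * ((r : ℝ) + 2) ^ (k - 1)) ∧
      ∃ (χ : ℕ → ℕ → Fin (r + 2)) (C : ℝ), ∀ n : ℕ, |(cnt k n (χ n) : ℝ) - δ * n ^ 2| ≤ C * n := by
  have hk1 : (3 : ℝ) ≤ k := by exact_mod_cast hk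
  set R : ℝ := (r : ℝ) + 2 with hR
  have hR2 : 2 ≤ R := by
    have : (0 : ℝ) ≤ r := Nat.cast_nonneg _
    linarith
  set D : ℕ := 3 * k ^ 3 * k.factorial with hD
  have hD1 : 1 ≤ D := by
    have : 0 < D := by
      have := Nat.factorial_pos k
      have : 0 < k := by omega
      positivity
    omega
  have hDr : (1 : ℝ) ≤ D := by exact_mod_cast hD1
  set d₀ : ℝ := 1 / (8 * D * k * 2 ^ k) with hd₀
  have h2k : (1 : ℝ) ≤ 2 ^ k := one_le_pow₀ (by norm_num)
  have hden : (1 : ℝ) ≤ 8 * D * k * 2 ^ k := by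
    have h1 : (1 : ℝ) ≤ 8 * D := by linarith
    have h2 : (1 : ℝ) ≤ 8 * D * k := by nlinarith
    nlinarith
  have hd0 : 0 < d₀ := by positivity
  have hd1 : d₀ ≤ 1 := by
    rw [hd₀, div_le_one (by linarith)]
    exact hden
  set g : ℝ := (1 / R) ^ k * (d₀ ^ 2 / (8 * D ^ 2 * k ^ 2)) with hg
  have hRk : 0 < (1 / R) ^ k := by positivity
  have hg0 : 0 < g := by positivity
  set rate : ℝ := (1 / R) ^ k * (R / (2 * ((k : ℝ) - 1))) with hrate
  have hkm : (0 : ℝ) < (k : ℝ) - 1 := by linarith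
  have hrate_eq : 1 / (2 * ((k : ℝ) - 1) * R ^ (k - 1)) = rate := by
    have h1 : R ^ k = R ^ (k - 1) * R := by
      rw [← pow_succ]
      congr 1
      omega
    rw [hrate, one_div_pow, h1]
    have : R ≠ 0 := by linarith
    field_simp
  rw [hrate_eq]
  have hRk1 : (1 / R) ^ k * R ≤ 1 := by
    have h1 : (1 / R) ^ k ≤ (1 / R) ^ 1 := by
      apply pow_le_pow_of_le_one (by positivity)
      · rw [div_le_one (by linarith)]
        linarith
      · omega
    rw [pow_one] at h1
    calc (1 / R) ^ k * R ≤ (1 / R) * R := mul_le_mul_of_nonneg_right h1 (by linarith)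
      _ = 1 := by
        have : R ≠ 0 := by linarith
        field_simp
  have hrate_le : rate ≤ 1 / (2 * ((k : ℝ) - 1)) := by
    have : rate = ((1 / R) ^ k * R) * (1 / (2 * ((k : ℝ) - 1))) := by
      rw [hrate]
      ring
    rw [this]
    have h2 : 0 < 1 / (2 * ((k : ℝ) - 1)) := by positivity
    nlinarith
  have hrate1 : rate ≤ 1 := by
    have : 1 / (2 * ((k : ℝ) - 1)) ≤ 1 := by
      rw [div_le_one (by positivity)]
      linarith
    linarith
  have hrate0 : 0 < rate := by positivity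
  have hRk1' : (1 / R) ^ k ≤ 1 := pow_le_one₀ (by positivity) (by
    rw [div_le_one (by linarith)]
    linarith)
  have hg1 : g ≤ 1 := by
    have h1 : d₀ ^ 2 / (8 * D ^ 2 * k ^ 2) ≤ 1 := by
      rw [div_le_one (by positivity)]
      have h2 : d₀ ^ 2 ≤ 1 := pow_le_one₀ hd0.le hd1
      have h3 : (1 : ℝ) ≤ (D : ℝ) ^ 2 := one_le_pow₀ hDr
      have h4 : (1 : ℝ) ≤ (k : ℝ) ^ 2 := one_le_pow₀ (by linarith)
      nlinarith
    have h5 : 0 ≤ d₀ ^ 2 / (8 * D ^ 2 * k ^ 2) := by positivity
    calc g ≤ 1 * 1 := mul_le_mul hRk1' h1 h5 (by norm_num)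
      _ = 1 := by norm_num
  refine ⟨rate - g, by linarith, ?_⟩
  have hex : ∀ n : ℕ, ∃ χ : ℕ → Fin (r + 2),
      |(cnt k n χ : ℝ) - (rate - g) * n ^ 2| ≤ (3 * D + 1 + k) * n := by
    intro n
    have hn0 : (0 : ℝ) ≤ n := Nat.cast_nonneg _
    have hNle := card_S_le (n := n) hk
    have hNge := card_S_ge (n := n) hk
    rcases Nat.lt_or_ge n D with hlt | hge
    · refine ⟨fun _ => 0, ?_⟩
      have h1 : (cnt k n (fun _ => (0 : Fin (r + 2))) : ℝ) ≤ (n : ℝ) ^ 2 := by
        have h2 : (cnt k n (fun _ => (0 : Fin (r + 2))) : ℝ) ≤ (S k n).card := by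
          exact_mod_cast cnt_le_card k n _
        have h3 : (n : ℝ) ^ 2 / (2 * ((k : ℝ) - 1)) ≤ (n : ℝ) ^ 2 := by
          apply div_le_self (by positivity)
          linarith
        linarith
      have h2 : (0 : ℝ) ≤ (cnt k n (fun _ => (0 : Fin (r + 2))) : ℝ) := Nat.cast_nonneg _
      have h3 : (n : ℝ) ≤ D := by exact_mod_cast hlt.le
      have h4 : (n : ℝ) ^ 2 ≤ D * n := by nlinarith
      have h5 : 0 ≤ (k : ℝ) * n := by positivity
      have h6 : 0 ≤ (n : ℝ) ^ 2 := by positivity
      rw [abs_le]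
      constructor
      · nlinarith
      · nlinarith
    · set t : ℕ := n / D with ht
      have ht1 : 1 ≤ t := by
        rw [ht, Nat.one_le_div_iff (by omega)]
        exact hge
      have htn : D * t ≤ n := Nat.mul_div_le n D
      have hnt : n < D * (t + 1) := by
        have := Nat.lt_mul_div_succ n (show 0 < D by omega)
        exact this
      have htr : (n : ℝ) ≤ 2 * D * t := by
        have h1 : n ≤ 2 * D * t := by nlinarith
        exact_mod_cast h1
      obtain ⟨χ, hχ⟩ := low_coloring (k := k) (n := n) (t := t) (r := r) hk ht1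
        (by rw [← hD]; exact htn) d₀ hd0.le hd1
      rw [← hR] at hχ
      -- the low colouring
      have hlow : (cnt k n χ : ℝ) ≤ (rate - g) * n ^ 2 := by
        refine hχ.trans ?_
        have e1 : (rate - g) * (n : ℝ) ^ 2 = (1 / R) ^ k *
            (R * ((n : ℝ) ^ 2 / (2 * ((k : ℝ) - 1))) - (d₀ ^ 2 / (8 * D ^ 2 * k ^ 2)) * n ^ 2) := by
          rw [hrate, hg]
          ring
        rw [e1]
        apply mul_le_mul_of_nonneg_left _ hRk.le
        have h1 : R * ((S k n).card : ℝ) ≤ R * ((n : ℝ) ^ 2 / (2 * ((k : ℝ) - 1))) :=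
          mul_le_mul_of_nonneg_left hNle (by linarith)
        have hN2 : ((S k n).card : ℝ) ≤ (n : ℝ) ^ 2 / 4 := by
          refine hNle.trans ?_
          apply div_le_div_of_nonneg_left (by positivity) (by norm_num)
          linarith
        have h2 : d₀ ^ 2 * (1 / (k : ℝ) ^ 2) * t ^ 2 ≥ d₀ ^ 2 / (4 * D ^ 2 * k ^ 2) * n ^ 2 := by
          have h3 : (n : ℝ) ^ 2 ≤ (2 * D * t) ^ 2 := pow_le_pow_left₀ hn0 htr 2
          have h4 : d₀ ^ 2 / (4 * D ^ 2 * k ^ 2) * (2 * D * t) ^ 2 =
              d₀ ^ 2 * (1 / (k : ℝ) ^ 2) * t ^ 2 := by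
            have h5 : (D : ℝ) ≠ 0 := by linarith
            have h6 : (k : ℝ) ≠ 0 := by linarith
            field_simp
            ring
          rw [← h4]
          exact mul_le_mul_of_nonneg_left h3 (by positivity)
        have h3 : 2 ^ (k + 1) * d₀ ^ 4 * ((S k n).card : ℝ) ≤
            d₀ ^ 2 / (8 * D ^ 2 * k ^ 2) * n ^ 2 := by
          have h4 : 2 ^ (k + 1) * d₀ ^ 4 * ((S k n).card : ℝ) ≤
              2 ^ (k + 1) * d₀ ^ 4 * ((n : ℝ) ^ 2 / 4) :=
            mul_le_mul_of_nonneg_left hN2 (by positivity)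
          refine h4.trans ?_
          have h5 : 2 ^ (k + 1) * d₀ ^ 2 / 4 ≤ 1 / (8 * D ^ 2 * k ^ 2) := by
            have h6 : d₀ ^ 2 = 1 / (64 * D ^ 2 * k ^ 2 * (2 ^ k) ^ 2) := by
              rw [hd₀]
              rw [div_pow]
              congr 1
              · norm_num
              · ring
            rw [h6]
            rw [div_le_div_iff₀ (by norm_num) (by positivity)]
            have h7 : (2 : ℝ) ^ (k + 1) = 2 * 2 ^ k := by ring
            rw [h7]
            have h8 : (D : ℝ) ≠ 0 := by linarith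
            have h9 : (k : ℝ) ≠ 0 := by linarith
            have h10 : (2 : ℝ) ^ k ≠ 0 := by positivity
            have h11 : 2 * 2 ^ k * (1 / (64 * (D : ℝ) ^ 2 * k ^ 2 * (2 ^ k) ^ 2)) *
                (8 * D ^ 2 * k ^ 2) = 1 / (4 * 2 ^ k) := by
              field_simp
              ring
            rw [h11]
            rw [div_le_iff₀ (by positivity)]
            linarith
          have h6 : 2 ^ (k + 1) * d₀ ^ 4 * ((n : ℝ) ^ 2 / 4) =
              (2 ^ (k + 1) * d₀ ^ 2 / 4) * (d₀ ^ 2 * n ^ 2) := by ring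
          rw [h6]
          have h7 : d₀ ^ 2 / (8 * D ^ 2 * k ^ 2) * (n : ℝ) ^ 2 =
              (1 / (8 * D ^ 2 * k ^ 2)) * (d₀ ^ 2 * n ^ 2) := by ring
          rw [h7]
          exact mul_le_mul_of_nonneg_right h5 (by positivity)
        have h4 : d₀ ^ 2 / (4 * D ^ 2 * k ^ 2) * (n : ℝ) ^ 2 =
            2 * (d₀ ^ 2 / (8 * D ^ 2 * k ^ 2) * n ^ 2) := by ring
        linarith
      -- the discrete intermediate value theorem
      have hstart : (cnt k n (fun x => if x ≤ 0 then (0 : Fin (r + 2)) else χ x) : ℝ) ≤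
          (rate - g) * n ^ 2 := by
        refine le_trans (le_of_eq ?_) hlow
        congr 1
        apply cnt_congr (by omega)
        intro x hx _
        exact if_neg (by omega)
      have hend : (rate - g) * n ^ 2 - n ≤
          (cnt k n (fun x => if x ≤ n then (0 : Fin (r + 2)) else χ x) : ℝ) := by
        have h1 : cnt k n (fun x => if x ≤ n then (0 : Fin (r + 2)) else χ x) = (S k n).card := by
          rw [cnt_congr (χ' := fun _ => (0 : Fin (r + 2))) (by omega)]
          · unfold cnt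
            congr 1
            apply Finset.filter_true_of_mem
            intro p _ i _
            rfl
          · intro x _ hx
            exact if_pos hx
        rw [h1]
        have h2 : (rate - g) * (n : ℝ) ^ 2 ≤ (n : ℝ) ^ 2 / (2 * ((k : ℝ) - 1)) := by
          have h3 : (rate - g) * (n : ℝ) ^ 2 ≤ (1 / (2 * ((k : ℝ) - 1))) * (n : ℝ) ^ 2 :=
            mul_le_mul_of_nonneg_right (by linarith) (by positivity)
          calc (rate - g) * (n : ℝ) ^ 2 ≤ (1 / (2 * ((k : ℝ) - 1))) * (n : ℝ) ^ 2 := h3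
            _ = _ := by ring
        linarith
      have hstep : ∀ m, (cnt k n (fun x => if x ≤ m + 1 then (0 : Fin (r + 2)) else χ x) : ℝ) ≤
          (cnt k n (fun x => if x ≤ m then (0 : Fin (r + 2)) else χ x) : ℝ) + k * n := by
        intro m
        have := cnt_change (k := k) (n := n) (by omega)
          (χ := fun x => if x ≤ m + 1 then (0 : Fin (r + 2)) else χ x)
          (χ' := fun x => if x ≤ m then (0 : Fin (r + 2)) else χ x) (m + 1) (by
            intro x hx
            by_cases h : x ≤ m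
            · rw [if_pos h, if_pos (by omega)]
            · rw [if_neg h, if_neg (by omega)])
        exact_mod_cast this
      obtain ⟨m, hm⟩ := discrete_ivt
        (fun m => (cnt k n (fun x => if x ≤ m then (0 : Fin (r + 2)) else χ x) : ℝ)) n
        ((rate - g) * n ^ 2) n (k * n) hn0 (by positivity) hstart hend hstep
      refine ⟨_, hm.trans ?_⟩
      have : 0 ≤ 3 * (D : ℝ) * n := by positivity
      linarith
  choose χ hχ using hex
  exact ⟨χ, _, hχ⟩

end Pool.Agent.N476.BR
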