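import Mathlib
import Pool.Agent.N476.BR.Count

set_option autoImplicit false

/-!
# Progressions as sets and as pairs `(a, d)`
-/

namespace Pool.Agent.N476.BR

open Finset

/-- The terms of the progression with parameters `(a, d)`. -/
def terms (k : ℕ) (p : ℕ × ℕ) : Finset ℕ := (range k).image (fun i => p.1 + i * p.2)

theorem mem_terms {k : ℕ} {p : ℕ × ℕ} {x : ℕ} : x ∈ terms k p ↔ ∃ i < k, p.1 + i * p.2 = x := by
  unfold terms
  rw [mem_image]
  simp only [mem_range]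

theorem terms_injOn {k n : ℕ} (hk : 2 ≤ k) : Set.InjOn (terms k) (S k n) := by
  have key : ∀ p q : ℕ × ℕ, 1 ≤ p.2 → 1 ≤ q.2 → terms k p = terms k q → q.1 ≤ p.1 := by
    intro p q _ _ h
    have h1 : p.1 ∈ terms k p := mem_terms.2 ⟨0, by omega, by simp⟩
    rw [h, mem_terms] at h1
    obtain ⟨i, _, h2⟩ := h1
    omega
  have key2 : ∀ p q : ℕ × ℕ, 1 ≤ p.2 → 1 ≤ q.2 → p.1 = q.1 → terms k p = terms k q →
      q.2 ≤ p.2 := by
    intro p q hp hq h0 h
    have h1 : p.1 + p.2 ∈ terms k p := mem_terms.2 ⟨1, by omega, by simp⟩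
    rw [h, mem_terms] at h1
    obtain ⟨i, _, h2⟩ := h1
    have hi : i ≠ 0 := by
      rintro rfl
      simp at h2
      omega
    have : q.2 ≤ i * q.2 := Nat.le_mul_of_pos_left _ (by omega)
    omega
  intro p hp q hq h
  have hp' := (mem_S hk p).1 (by exact_mod_cast hp)
  have hq' := (mem_S hk q).1 (by exact_mod_cast hq)
  have h1 : p.1 = q.1 :=
    le_antisymm (key q p hq'.2.1 hp'.2.1 h.symm) (key p q hp'.2.1 hq'.2.1 h)
  have h2 : p.2 = q.2 :=
    le_antisymm (key2 q p hq'.2.1 hp'.2.1 h1.symm h.symm) (key2 p q hp'.2.1 hq'.2.1 h1 h)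
  exact Prod.ext h1 h2

theorem cnt_eq {r : ℕ} {k n : ℕ} (hk : 2 ≤ k) (χ : ℕ → Fin r) :
    {P : Finset ℕ | (∃ a d : ℕ, 1 ≤ a ∧ 1 ≤ d ∧ a + (k - 1) * d ≤ n ∧
      P = (range k).image (fun i => a + i * d)) ∧ ∀ x ∈ P, ∀ y ∈ P, χ x = χ y}.ncard =
      cnt k n χ := by
  classical
  have h1 : {P : Finset ℕ | (∃ a d : ℕ, 1 ≤ a ∧ 1 ≤ d ∧ a + (k - 1) * d ≤ n ∧
      P = (range k).image (fun i => a + i * d)) ∧ ∀ x ∈ P, ∀ y ∈ P, χ x = χ y} =
      (((S k n).filter (fun p => ∀ i < k, χ (p.1 + i * p.2) = χ p.1)).image (terms k) :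
        Set (Finset ℕ)) := by
    ext P
    rw [Finset.mem_coe, mem_image]
    constructor
    · rintro ⟨⟨a, d, ha, hd, han, rfl⟩, hmono⟩
      refine ⟨(a, d), ?_, rfl⟩
      rw [mem_filter, mem_S hk]
      refine ⟨⟨ha, hd, han⟩, fun i hi => ?_⟩
      apply hmono
      · exact mem_image.2 ⟨i, mem_range.2 hi, rfl⟩
      · exact mem_image.2 ⟨0, mem_range.2 (by omega), by simp⟩
    · rintro ⟨p, hp, rfl⟩
      rw [mem_filter, mem_S hk] at hp
      obtain ⟨⟨h1, h2, h3⟩, h4⟩ := hp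
      refine ⟨⟨p.1, p.2, h1, h2, h3, rfl⟩, ?_⟩
      intro x hx y hy
      obtain ⟨i, hi, rfl⟩ := mem_terms.1 hx
      obtain ⟨j, hj, rfl⟩ := mem_terms.1 hy
      rw [h4 i hi, h4 j hj]
  rw [h1, Set.ncard_coe_finset, Finset.card_image_of_injOn]
  · rfl
  · exact (terms_injOn hk).mono (by
      intro p hp
      rw [Finset.mem_coe, mem_filter] at hp
      exact_mod_cast hp.1)

end Pool.Agent.N476.BR
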